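import Mathlib

set_option autoImplicit false

namespace Pool.Agent.Results.MP_696e10_co.HalfRandom

open SimpleGraph Filter

/-- A path system in `G`: one simple path for every pair of vertices (the path chosen from `v` to
`u` is the reverse of the path chosen from `u` to `v`). -/
structure PathSystem {V : Type*} (G : SimpleGraph V) where
  /-- the chosen path -/
  path : ∀ u v : V, G.Walk u v
  isPath : ∀ u v : V, (path u v).IsPath
  path_symm : ∀ u v : V, path v u = (path u v).reverse

/-- Consistency: every segment of a chosen path is the chosen path of its two ends. -/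
def PathSystem.Consistent {V : Type*} {G : SimpleGraph V} (P : PathSystem G) : Prop :=
  ∀ (u v x y : V) (s : G.Walk x y), s.IsSubwalk (P.path u v) → s = P.path x y

/-- Metrizability: for some positive edge weights every chosen path has minimum weight among all
simple paths with the same ends. -/
def PathSystem.Metrizable {V : Type*} {G : SimpleGraph V} (P : PathSystem G) : Prop :=
  ∃ w : Sym2 V → ℝ, (∀ e ∈ G.edgeSet, 0 < w e) ∧
    ∀ (u v : V) (q : G.Walk u v), q.IsPath →
      ((P.path u v).edges.map w).sum ≤ (q.edges.map w).sum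

/-- A reduction: a partition of the vertices into two nonempty parts `A` and `Aᶜ` such that the
chosen path between two vertices of one part stays in that part. -/
def PathSystem.IsReduction {V : Type*} {G : SimpleGraph V} (P : PathSystem G) (A : Set V) : Prop :=
  A.Nonempty ∧ Aᶜ.Nonempty ∧
    (∀ u ∈ A, ∀ v ∈ A, ∀ x ∈ (P.path u v).support, x ∈ A) ∧
    (∀ u ∈ Aᶜ, ∀ v ∈ Aᶜ, ∀ x ∈ (P.path u v).support, x ∈ Aᶜ)

/-- Irreducibility: there is no reduction. -/
def PathSystem.Irreducible {V : Type*} {G : SimpleGraph V} (P : PathSystem G) : Prop :=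
  ¬ ∃ A : Set V, P.IsReduction A

/-- The gadget graph. -/
def gadj (i j : ℕ) : Bool :=
  match i, j with
  | 0, 1 => true | 1, 0 => true
  | 1, 2 => true | 2, 1 => true
  | 2, 3 => true | 3, 2 => true
  | 0, 4 => true | 4, 0 => true
  | 3, 4 => true | 4, 3 => true
  | 4, 6 => true | 6, 4 => true
  | 5, 6 => true | 6, 5 => true
  | 0, 5 => true | 5, 0 => true
  | 2, 6 => true | 6, 2 => true
  | 1, 5 => true | 5, 1 => true
  | 3, 8 => true | 8, 3 => true
  | 7, 8 => true | 8, 7 => true
  | 4, 7 => true | 7, 4 => true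
  | 0, 8 => true | 8, 0 => true
  | 1, 7 => true | 7, 1 => true
  | _, _ => false

/-- The prescribed middle vertices in the gadget. -/
def tbl (i j : Fin 9) : Option (Fin 9) :=
  match i.val, j.val with
  | 0, 2 => some 1 | 2, 0 => some 1
  | 1, 3 => some 2 | 3, 1 => some 2
  | 0, 6 => some 4 | 6, 0 => some 4
  | 4, 5 => some 0 | 5, 4 => some 0
  | 2, 5 => some 6 | 5, 2 => some 6
  | 1, 6 => some 5 | 6, 1 => some 5
  | 4, 8 => some 3 | 8, 4 => some 3
  | 3, 7 => some 4 | 7, 3 => some 4
  | 0, 7 => some 8 | 7, 0 => some 8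
  | 1, 8 => some 7 | 8, 1 => some 7
  | _, _ => none

lemma tbl_symm : ∀ i j, tbl i j = tbl j i := by decide

lemma tbl_adj : ∀ i j k, tbl i j = some k → gadj i k = true ∧ gadj k j = true := by decide

section deterministic

variable {V : Type*}

lemma infix_one {α : Type*} {l : List α} {a : α} (h : l <:+: [a]) (hl : l ≠ []) : l = [a] := by
  rcases List.infix_cons_iff.mp h with h1 | h1
  · rcases List.prefix_cons_iff.mp h1 with h2 | ⟨t, ht, h2⟩
    · exact absurd h2 hl
    · simp at h2; subst h2; exact ht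
  · simp at h1; exact absurd h1 hl

lemma infix_two {α : Type*} {l : List α} {a b : α} (h : l <:+: [a, b]) (hl : l ≠ []) :
    l = [a] ∨ l = [b] ∨ l = [a, b] := by
  rcases List.infix_cons_iff.mp h with h1 | h1
  · rcases List.prefix_cons_iff.mp h1 with h2 | ⟨t, ht, h2⟩
    · exact absurd h2 hl
    · rcases List.prefix_cons_iff.mp h2 with h3 | ⟨t', ht', h3⟩
      · subst h3; simp [ht]
      · simp at h3; subst h3; simp [ht, ht']
  · have := infix_one h1 hl; simp [this]

lemma infix_three {α : Type*} {l : List α} {a b c : α} (h : l <:+: [a, b, c]) (hl : l ≠ []) :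
    l = [a] ∨ l = [b] ∨ l = [c] ∨ l = [a, b] ∨ l = [b, c] ∨ l = [a, b, c] := by
  rcases List.infix_cons_iff.mp h with h1 | h1
  · rcases List.prefix_cons_iff.mp h1 with h2 | ⟨t, ht, h2⟩
    · exact absurd h2 hl
    · rcases List.prefix_cons_iff.mp h2 with h3 | ⟨t', ht', h3⟩
      · subst h3; simp [ht]
      · rcases List.prefix_cons_iff.mp h3 with h4 | ⟨t'', ht'', h4⟩
        · subst h4; simp [ht, ht']
        · simp at h4; subst h4; simp [ht, ht', ht'']
  · have := infix_two h1 hl
    rcases this with h | h | h <;> simp [h]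

lemma infix_four {α : Type*} {l : List α} {a b c d : α} (h : l <:+: [a, b, c, d]) (hl : l ≠ []) :
    l = [a] ∨ l = [b] ∨ l = [c] ∨ l = [d] ∨ l = [a, b] ∨ l = [b, c] ∨ l = [c, d] ∨
      l = [a, b, c] ∨ l = [b, c, d] ∨ l = [a, b, c, d] := by
  rcases List.infix_cons_iff.mp h with h1 | h1
  · rcases List.prefix_cons_iff.mp h1 with h2 | ⟨t, ht, h2⟩
    · exact absurd h2 hl
    · rcases List.prefix_cons_iff.mp h2 with h3 | ⟨t', ht', h3⟩
      · subst h3; simp [ht]
      · rcases List.prefix_cons_iff.mp h3 with h4 | ⟨t'', ht'', h4⟩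
        · subst h4; simp [ht, ht']
        · rcases List.prefix_cons_iff.mp h4 with h5 | ⟨t3, ht3, h5⟩
          · subst h5; simp [ht, ht', ht'']
          · simp at h5; subst h5; simp [ht, ht', ht'', ht3]
  · have := infix_three h1 hl
    rcases this with h | h | h | h | h | h <;> simp [h]

open Classical in
/-- A symmetric choice of a common neighbour. -/
noncomputable def cn (G : SimpleGraph V) [Nonempty V] (u v : V) : V :=
  Classical.epsilon (fun w => G.Adj u w ∧ G.Adj v w)

lemma cn_symm (G : SimpleGraph V) [Nonempty V] (u v : V) : cn G u v = cn G v u := by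
  unfold cn
  congr 1
  funext w
  rw [and_comm]

lemma cn_spec (G : SimpleGraph V) [Nonempty V] {u v : V} (h : ∃ w, G.Adj u w ∧ G.Adj v w) :
    G.Adj u (cn G u v) ∧ G.Adj v (cn G u v) := Classical.epsilon_spec h

open Classical in
/-- The middle vertex of the path of length two between two non-adjacent vertices. -/
noncomputable def mid (G : SimpleGraph V) [Nonempty V] (φ : Fin 9 → V) (thd : V → V → V) (u v : V) :
    V :=
  if h : ∃ k : Fin 9, ∃ i j : Fin 9, φ i = u ∧ φ j = v ∧ tbl i j = some k then φ h.choose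
  else if G.Adj u (thd u v) ∧ G.Adj v (thd u v) then thd u v else cn G u v

open Classical in
/-- The vertex list of the chosen path. -/
noncomputable def lst (G : SimpleGraph V) [Nonempty V] (φ : Fin 9 → V) (thd : V → V → V) (u v : V) :
    List V :=
  if u = v then [u]
  else if G.Adj u v then [u, v]
  else if u = φ 0 ∧ v = φ 3 then [φ 0, φ 1, φ 2, φ 3]
  else if u = φ 3 ∧ v = φ 0 then [φ 3, φ 2, φ 1, φ 0]
  else [u, mid G φ thd u v, v]

variable {G : SimpleGraph V} [Nonempty V] {φ : Fin 9 → V} {thd : V → V → V}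

lemma mid_special (hφ : Function.Injective φ) {i j k : Fin 9} (h : tbl i j = some k) :
    mid G φ thd (φ i) (φ j) = φ k := by
  unfold mid
  have hex : ∃ k' : Fin 9, ∃ i' j' : Fin 9, φ i' = φ i ∧ φ j' = φ j ∧ tbl i' j' = some k' :=
    ⟨k, i, j, rfl, rfl, h⟩
  rw [dif_pos hex]
  obtain ⟨i', j', h1, h2, h3⟩ := hex.choose_spec
  rw [hφ h1, hφ h2, h] at h3
  rw [← Option.some.inj h3]

lemma mid_symm (hφ : Function.Injective φ) (hthd : ∀ u v, thd u v = thd v u) (u v : V) :
    mid G φ thd u v = mid G φ thd v u := by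
  by_cases h : ∃ k : Fin 9, ∃ i j : Fin 9, φ i = u ∧ φ j = v ∧ tbl i j = some k
  · obtain ⟨k, i, j, rfl, rfl, h⟩ := h
    rw [mid_special hφ h, mid_special hφ (by rw [tbl_symm]; exact h)]
  · have h' : ¬ ∃ k : Fin 9, ∃ i j : Fin 9, φ i = v ∧ φ j = u ∧ tbl i j = some k := by
      rintro ⟨k, i, j, rfl, rfl, h1⟩
      exact h ⟨k, j, i, rfl, rfl, by rw [tbl_symm]; exact h1⟩
    unfold mid
    rw [dif_neg h, dif_neg h', hthd v u, cn_symm G v u]
    congr 1
    rw [and_comm]

lemma mid_adj (hφ : Function.Injective φ)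
    (hH : ∀ i j : Fin 9, G.Adj (φ i) (φ j) ↔ gadj i j = true)
    (hb : ∀ u v : V, u ≠ v → ¬ G.Adj u v → ∃ w, G.Adj u w ∧ G.Adj v w)
    {u v : V} (huv : u ≠ v) (hadj : ¬ G.Adj u v) :
    G.Adj u (mid G φ thd u v) ∧ G.Adj (mid G φ thd u v) v := by
  by_cases h : ∃ k : Fin 9, ∃ i j : Fin 9, φ i = u ∧ φ j = v ∧ tbl i j = some k
  · obtain ⟨k, i, j, rfl, rfl, h⟩ := h
    rw [mid_special hφ h]
    have := tbl_adj i j k h
    exact ⟨(hH i k).mpr this.1, (hH k j).mpr this.2⟩
  · unfold mid
    rw [dif_neg h]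
    split_ifs with h2
    · exact ⟨h2.1, h2.2.symm⟩
    · have := cn_spec G (hb u v huv hadj)
      exact ⟨this.1, this.2.symm⟩

lemma lst_symm (hφ : Function.Injective φ) (hthd : ∀ u v, thd u v = thd v u) (u v : V) :
    lst G φ thd v u = (lst G φ thd u v).reverse := by
  unfold lst
  by_cases h1 : u = v
  · subst h1; simp
  · have h1' : ¬ v = u := fun h => h1 h.symm
    rw [if_neg h1, if_neg h1']
    by_cases h2 : G.Adj u v
    · rw [if_pos h2, if_pos h2.symm]; rfl
    · have h2' : ¬ G.Adj v u := fun h => h2 h.symm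
      rw [if_neg h2, if_neg h2']
      by_cases h3 : u = φ 0 ∧ v = φ 3
      · have h3' : ¬ (v = φ 0 ∧ u = φ 3) := by
          rintro ⟨h4, -⟩
          have := hφ (h3.2.symm.trans h4)
          exact absurd this (by decide)
        rw [if_pos h3, if_neg h3', if_pos ⟨h3.2, h3.1⟩]; rfl
      · rw [if_neg h3]
        by_cases h4 : u = φ 3 ∧ v = φ 0
        · rw [if_pos h4, if_pos ⟨h4.2, h4.1⟩]; rfl
        · rw [if_neg h4, if_neg (fun h => h4 ⟨h.2, h.1⟩), if_neg (fun h => h3 ⟨h.2, h.1⟩),
            mid_symm hφ hthd v u]; rfl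

lemma exists_walk (hφ : Function.Injective φ)
    (hH : ∀ i j : Fin 9, G.Adj (φ i) (φ j) ↔ gadj i j = true)
    (hb : ∀ u v : V, u ≠ v → ¬ G.Adj u v → ∃ w, G.Adj u w ∧ G.Adj v w) (u v : V) :
    ∃ p : G.Walk u v, p.support = lst G φ thd u v ∧ p.IsPath := by
  unfold lst
  by_cases h1 : u = v
  · subst h1
    rw [if_pos rfl]
    exact ⟨Walk.nil, rfl, Walk.IsPath.nil⟩
  · rw [if_neg h1]
    by_cases h2 : G.Adj u v
    · rw [if_pos h2]
      refine ⟨Walk.cons h2 Walk.nil, rfl, ?_⟩
      simp [Walk.isPath_def, h1]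
    · rw [if_neg h2]
      have a01 : G.Adj (φ 0) (φ 1) := (hH 0 1).mpr rfl
      have a12 : G.Adj (φ 1) (φ 2) := (hH 1 2).mpr rfl
      have a23 : G.Adj (φ 2) (φ 3) := (hH 2 3).mpr rfl
      by_cases h3 : u = φ 0 ∧ v = φ 3
      · rw [if_pos h3]
        obtain ⟨rfl, rfl⟩ := h3
        refine ⟨Walk.cons a01 (Walk.cons a12 (Walk.cons a23 Walk.nil)), rfl, ?_⟩
        rw [Walk.isPath_def]
        simp [hφ.eq_iff]
      · rw [if_neg h3]
        by_cases h4 : u = φ 3 ∧ v = φ 0
        · rw [if_pos h4]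
          obtain ⟨rfl, rfl⟩ := h4
          refine ⟨Walk.cons a23.symm (Walk.cons a12.symm (Walk.cons a01.symm Walk.nil)), rfl, ?_⟩
          rw [Walk.isPath_def]
          simp [hφ.eq_iff]
        · rw [if_neg h4]
          have hm := mid_adj (thd := thd) hφ hH hb h1 h2
          refine ⟨Walk.cons hm.1 (Walk.cons hm.2 Walk.nil), rfl, ?_⟩
          rw [Walk.isPath_def]
          simp [hm.1.ne, hm.2.ne, h1]

/-- The path system built from the data. -/
noncomputable def sys (hφ : Function.Injective φ) (hthd : ∀ u v, thd u v = thd v u)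
    (hH : ∀ i j : Fin 9, G.Adj (φ i) (φ j) ↔ gadj i j = true)
    (hb : ∀ u v : V, u ≠ v → ¬ G.Adj u v → ∃ w, G.Adj u w ∧ G.Adj v w) : PathSystem G where
  path u v := (exists_walk (thd := thd) hφ hH hb u v).choose
  isPath u v := (exists_walk (thd := thd) hφ hH hb u v).choose_spec.2
  path_symm u v := by
    apply Walk.ext_support
    rw [Walk.support_reverse, (exists_walk (thd := thd) hφ hH hb u v).choose_spec.1,
      (exists_walk (thd := thd) hφ hH hb v u).choose_spec.1]
    exact lst_symm hφ hthd u v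

lemma sys_support (hφ : Function.Injective φ) (hthd : ∀ u v, thd u v = thd v u)
    (hH : ∀ i j : Fin 9, G.Adj (φ i) (φ j) ↔ gadj i j = true)
    (hb : ∀ u v : V, u ≠ v → ¬ G.Adj u v → ∃ w, G.Adj u w ∧ G.Adj v w) (u v : V) :
    ((sys hφ hthd hH hb).path u v).support = lst G φ thd u v :=
  (exists_walk (thd := thd) hφ hH hb u v).choose_spec.1

lemma lst_self (u : V) : lst G φ thd u u = [u] := by simp [lst]

lemma lst_adj {u v : V} (h : G.Adj u v) : lst G φ thd u v = [u, v] := by
  simp [lst, h, h.ne]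

lemma lst_special (hφ : Function.Injective φ)
    (hH : ∀ i j : Fin 9, G.Adj (φ i) (φ j) ↔ gadj i j = true) {i j k : Fin 9}
    (h : tbl i j = some k) : lst G φ thd (φ i) (φ j) = [φ i, φ k, φ j] := by
  have key : ∀ i j k : Fin 9, tbl i j = some k → i ≠ j ∧ gadj i j = false ∧ ¬ (i = 0 ∧ j = 3) ∧
      ¬ (i = 3 ∧ j = 0) := by decide
  obtain ⟨h1, h2, h3, h4⟩ := key i j k h
  have h1' : ¬ φ i = φ j := fun h => h1 (hφ h)
  have h2' : ¬ G.Adj (φ i) (φ j) := by rw [hH, h2]; simp
  have h3' : ¬ (φ i = φ 0 ∧ φ j = φ 3) := fun h => h3 ⟨hφ h.1, hφ h.2⟩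
  have h4' : ¬ (φ i = φ 3 ∧ φ j = φ 0) := fun h => h4 ⟨hφ h.1, hφ h.2⟩
  unfold lst
  rw [if_neg h1', if_neg h2', if_neg h3', if_neg h4', mid_special hφ h]

lemma lst_03 (hφ : Function.Injective φ)
    (hH : ∀ i j : Fin 9, G.Adj (φ i) (φ j) ↔ gadj i j = true) :
    lst G φ thd (φ 0) (φ 3) = [φ 0, φ 1, φ 2, φ 3] := by
  have h1' : ¬ φ 0 = φ 3 := fun h => absurd (hφ h) (by decide)
  have h2' : ¬ G.Adj (φ 0) (φ 3) := by rw [hH]; decide
  unfold lst
  rw [if_neg h1', if_neg h2', if_pos ⟨rfl, rfl⟩]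

lemma sys_consistent (hφ : Function.Injective φ) (hthd : ∀ u v, thd u v = thd v u)
    (hH : ∀ i j : Fin 9, G.Adj (φ i) (φ j) ↔ gadj i j = true)
    (hb : ∀ u v : V, u ≠ v → ¬ G.Adj u v → ∃ w, G.Adj u w ∧ G.Adj v w) :
    (sys hφ hthd hH hb).Consistent := by
  intro u v x y s hs
  apply Walk.ext_support
  rw [sys_support]
  have hinf : s.support <:+: lst G φ thd u v := by
    rw [← sys_support hφ hthd hH hb u v]
    exact Walk.isSubwalk_iff_support_isInfix.mp hs
  have hne : s.support ≠ [] := Walk.support_ne_nil s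
  have hhead : s.support.head? = some x := by
    rw [List.head?_eq_some_head hne, Walk.head_support]
  have hlast : s.support.getLast? = some y := by
    rw [List.getLast?_eq_some_getLast hne, Walk.getLast_support]
  generalize s.support = l at hinf hne hhead hlast
  -- it is enough to know the list of its two end points
  have fin : ∀ (p q : V), l.head? = some p → l.getLast? = some q → l = lst G φ thd p q →
      l = lst G φ thd x y := by
    intro p q hp hq h
    rw [hhead] at hp
    rw [hlast] at hq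
    rw [Option.some.inj hp, Option.some.inj hq]; exact h
  have one : ∀ p : V, l = [p] → l = lst G φ thd x y := by
    intro p h
    exact fin p p (by rw [h]; rfl) (by rw [h]; rfl) (by rw [lst_self]; exact h)
  have two : ∀ p q : V, G.Adj p q → l = [p, q] → l = lst G φ thd x y := by
    intro p q hpq h
    exact fin p q (by rw [h]; rfl) (by rw [h]; rfl) (by rw [lst_adj hpq]; exact h)
  have a01 : G.Adj (φ 0) (φ 1) := (hH 0 1).mpr rfl
  have a12 : G.Adj (φ 1) (φ 2) := (hH 1 2).mpr rfl
  have a23 : G.Adj (φ 2) (φ 3) := (hH 2 3).mpr rfl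
  by_cases h1 : u = v
  · subst h1
    rw [lst_self] at hinf
    exact one u (infix_one hinf hne)
  by_cases h2 : G.Adj u v
  · rw [lst_adj h2] at hinf
    rcases infix_two hinf hne with h | h | h
    · exact one _ h
    · exact one _ h
    · exact two _ _ h2 h
  have h30 : ∀ l' : List V, l' = [φ 3, φ 2, φ 1, φ 0] → l' = lst G φ thd (φ 3) (φ 0) := by
    intro l' h
    rw [lst_symm hφ hthd (φ 0) (φ 3), lst_03 hφ hH, h]; rfl
  unfold lst at hinf
  rw [if_neg h1, if_neg h2] at hinf
  by_cases h3 : u = φ 0 ∧ v = φ 3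
  · rw [if_pos h3] at hinf
    rcases infix_four hinf hne with h | h | h | h | h | h | h | h | h | h
    · exact one _ h
    · exact one _ h
    · exact one _ h
    · exact one _ h
    · exact two _ _ a01 h
    · exact two _ _ a12 h
    · exact two _ _ a23 h
    · exact fin (φ 0) (φ 2) (by rw [h]; rfl) (by rw [h]; rfl)
        (by rw [lst_special (k := 1) hφ hH (by decide)]; exact h)
    · exact fin (φ 1) (φ 3) (by rw [h]; rfl) (by rw [h]; rfl)
        (by rw [lst_special (k := 2) hφ hH (by decide)]; exact h)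
    · exact fin (φ 0) (φ 3) (by rw [h]; rfl) (by rw [h]; rfl)
        (by rw [lst_03 hφ hH]; exact h)
  rw [if_neg h3] at hinf
  by_cases h4 : u = φ 3 ∧ v = φ 0
  · rw [if_pos h4] at hinf
    rcases infix_four hinf hne with h | h | h | h | h | h | h | h | h | h
    · exact one _ h
    · exact one _ h
    · exact one _ h
    · exact one _ h
    · exact two _ _ a23.symm h
    · exact two _ _ a12.symm h
    · exact two _ _ a01.symm h
    · exact fin (φ 3) (φ 1) (by rw [h]; rfl) (by rw [h]; rfl)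
        (by rw [lst_special (k := 2) hφ hH (by decide)]; exact h)
    · exact fin (φ 2) (φ 0) (by rw [h]; rfl) (by rw [h]; rfl)
        (by rw [lst_special (k := 1) hφ hH (by decide)]; exact h)
    · exact fin (φ 3) (φ 0) (by rw [h]; rfl) (by rw [h]; rfl) (h30 _ h)
  rw [if_neg h4] at hinf
  have hm := mid_adj (thd := thd) hφ hH hb h1 h2
  rcases infix_three hinf hne with h | h | h | h | h | h
  · exact one _ h
  · exact one _ h
  · exact one _ h
  · exact two _ _ hm.1 h
  · exact two _ _ hm.2 h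
  · refine fin u v (by rw [h]; rfl) (by rw [h]; rfl) ?_
    rw [h]
    unfold lst
    rw [if_neg h1, if_neg h2, if_neg h3, if_neg h4]

lemma lst_thd {u v : V} (h1 : u ≠ v) (h2 : ¬ G.Adj u v) (h3 : G.Adj u (thd u v))
    (h4 : G.Adj v (thd u v)) (h5 : ¬ (u ∈ Set.range φ ∧ v ∈ Set.range φ)) :
    lst G φ thd u v = [u, thd u v, v] := by
  unfold lst
  rw [if_neg h1, if_neg h2, if_neg (fun h => h5 ⟨⟨0, h.1.symm⟩, ⟨3, h.2.symm⟩⟩),
    if_neg (fun h => h5 ⟨⟨3, h.1.symm⟩, ⟨0, h.2.symm⟩⟩)]
  unfold mid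
  rw [dif_neg, if_pos ⟨h3, h4⟩]
  rintro ⟨k, i, j, hi, hj, -⟩
  exact h5 ⟨⟨i, hi⟩, ⟨j, hj⟩⟩

lemma sys_irreducible (hφ : Function.Injective φ) (hthd : ∀ u v, thd u v = thd v u)
    (hH : ∀ i j : Fin 9, G.Adj (φ i) (φ j) ↔ gadj i j = true)
    (hb : ∀ u v : V, u ≠ v → ¬ G.Adj u v → ∃ w, G.Adj u w ∧ G.Adj v w)
    (hc : ∀ A : Set V, A.Nonempty → Aᶜ.Nonempty → ∃ u v : V, u ≠ v ∧ ¬ G.Adj u v ∧
      G.Adj u (thd u v) ∧ G.Adj v (thd u v) ∧ ¬ (u ∈ Set.range φ ∧ v ∈ Set.range φ) ∧
      (u ∈ A ↔ v ∈ A) ∧ ¬ (u ∈ A ↔ thd u v ∈ A)) :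
    (sys hφ hthd hH hb).Irreducible := by
  rintro ⟨A, hA, hAc, hA1, hA2⟩
  obtain ⟨u, v, h1, h2, h3, h4, h5, h6, h7⟩ := hc A hA hAc
  have hl := lst_thd h1 h2 h3 h4 h5
  by_cases hu : u ∈ A
  · have := hA1 u hu v (h6.mp hu) (thd u v) (by
      rw [sys_support, hl]; simp)
    exact h7 ⟨fun _ => this, fun _ => hu⟩
  · have := hA2 u hu v (fun h => hu (h6.mpr h)) (thd u v) (by
      rw [sys_support, hl]; simp)
    exact h7 ⟨fun h => absurd h hu, fun h => absurd h this⟩

lemma sys_nonmetrizable (hφ : Function.Injective φ) (hthd : ∀ u v, thd u v = thd v u)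
    (hH : ∀ i j : Fin 9, G.Adj (φ i) (φ j) ↔ gadj i j = true)
    (hb : ∀ u v : V, u ≠ v → ¬ G.Adj u v → ∃ w, G.Adj u w ∧ G.Adj v w) :
    ¬ (sys hφ hthd hH hb).Metrizable := by
  rintro ⟨w, hpos, hw⟩
  -- comparison of a prescribed path of length two with another path of length two
  have cmp : ∀ i j k l : Fin 9, tbl i j = some k → gadj i l = true → gadj l j = true → i ≠ j →
      w s(φ i, φ k) + w s(φ k, φ j) ≤ w s(φ i, φ l) + w s(φ l, φ j) := by
    intro i j k l hk h1 h2 hij
    have g1 : G.Adj (φ i) (φ l) := (hH i l).mpr h1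
    have g2 : G.Adj (φ l) (φ j) := (hH l j).mpr h2
    have k1 : G.Adj (φ i) (φ k) := (hH i k).mpr (tbl_adj i j k hk).1
    have k2 : G.Adj (φ k) (φ j) := (hH k j).mpr (tbl_adj i j k hk).2
    have hq : (Walk.cons g1 (Walk.cons g2 Walk.nil)).IsPath := by
      rw [Walk.isPath_def]
      have : φ i ≠ φ j := fun h => hij (hφ h)
      simp [g1.ne, g2.ne, this]
    have := hw (φ i) (φ j) _ hq
    have hp : (sys hφ hthd hH hb).path (φ i) (φ j) = Walk.cons k1 (Walk.cons k2 Walk.nil) := by
      apply Walk.ext_support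
      rw [sys_support, lst_special hφ hH hk]
      rfl
    rw [hp] at this
    simpa using this
  have a01 : G.Adj (φ 0) (φ 1) := (hH 0 1).mpr rfl
  have a12 : G.Adj (φ 1) (φ 2) := (hH 1 2).mpr rfl
  have a23 : G.Adj (φ 2) (φ 3) := (hH 2 3).mpr rfl
  have a04 : G.Adj (φ 0) (φ 4) := (hH 0 4).mpr rfl
  have a43 : G.Adj (φ 4) (φ 3) := (hH 4 3).mpr rfl
  have c0 : w s(φ 0, φ 1) + (w s(φ 1, φ 2) + w s(φ 2, φ 3)) ≤ w s(φ 0, φ 4) + w s(φ 4, φ 3) := by
    have hq : (Walk.cons a04 (Walk.cons a43 Walk.nil)).IsPath := by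
      rw [Walk.isPath_def]
      simp [hφ.eq_iff]
    have := hw (φ 0) (φ 3) _ hq
    have hp : (sys hφ hthd hH hb).path (φ 0) (φ 3) =
        Walk.cons a01 (Walk.cons a12 (Walk.cons a23 Walk.nil)) := by
      apply Walk.ext_support
      rw [sys_support, lst_03 hφ hH]
      rfl
    rw [hp] at this
    simpa using this
  have c1 := cmp 0 6 4 5 (by decide) (by decide) (by decide) (by decide)
  have c2 := cmp 4 5 0 6 (by decide) (by decide) (by decide) (by decide)
  have c3 := cmp 5 2 6 1 (by decide) (by decide) (by decide) (by decide)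
  have c4 := cmp 6 1 5 2 (by decide) (by decide) (by decide) (by decide)
  have c5 := cmp 4 8 3 7 (by decide) (by decide) (by decide) (by decide)
  have c6 := cmp 3 7 4 8 (by decide) (by decide) (by decide) (by decide)
  have c7 := cmp 7 0 8 1 (by decide) (by decide) (by decide) (by decide)
  have c8 := cmp 8 1 7 0 (by decide) (by decide) (by decide) (by decide)
  have hp := hpos s(φ 2, φ 3) a23
  simp only [Sym2.eq_swap (a := φ 4) (b := φ 0), Sym2.eq_swap (a := φ 4) (b := φ 3),
    Sym2.eq_swap (a := φ 6) (b := φ 5),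
    Sym2.eq_swap (a := φ 5) (b := φ 1),
    Sym2.eq_swap (a := φ 6) (b := φ 2), Sym2.eq_swap (a := φ 2) (b := φ 1),
    Sym2.eq_swap (a := φ 8) (b := φ 7), Sym2.eq_swap (a := φ 8) (b := φ 0),
    Sym2.eq_swap (a := φ 7) (b := φ 1), Sym2.eq_swap (a := φ 1) (b := φ 0)] at c0 c1 c2 c3 c4 c5 c6 c7 c8
  linarith

end deterministic

section counting

variable {E : Type*} [Fintype E] [DecidableEq E]

lemma card_fiber_le (p : E → Bool) (T : Finset E) (C : Finset (E → Bool)) (g : E → Bool) :
    (C.filter (fun f => (fun e => if e ∈ T then p e else f e) = g)).card ≤ 2 ^ T.card := by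
  have hc : (Finset.univ : Finset (T → Bool)).card = 2 ^ T.card := by simp
  rw [← hc]
  refine Finset.card_le_card_of_injOn (fun f => fun e : T => f e) (by intro; simp) ?_
  intro f hf f' hf' h
  simp only [Finset.coe_filter, Set.mem_ofPred_eq] at hf hf'
  funext e
  by_cases he : e ∈ T
  · exact congrFun h ⟨e, he⟩
  · have h1 := congrFun hf.2 e
    have h2 := congrFun hf'.2 e
    simp only [if_neg he] at h1 h2
    rw [h1, h2]

lemma count_avoid {ι : Type*} [DecidableEq ι] (p : E → Bool) (T : ι → Finset E) (s : ℕ)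
    (J : Finset ι) (hdisj : ∀ i ∈ J, ∀ j ∈ J, i ≠ j → Disjoint (T i) (T j))
    (hs : ∀ j ∈ J, (T j).card ≤ s) :
    ((Finset.univ.filter (fun f : E → Bool => ∀ j ∈ J, ∃ e ∈ T j, f e ≠ p e)).card : ℝ)
      ≤ (1 - (1 / 2) ^ s) ^ J.card * (Fintype.card (E → Bool) : ℝ) := by
  induction J using Finset.induction_on with
  | empty => simp
  | insert a J ha ih =>
    have ih' := ih (fun i hi j hj => hdisj i (Finset.mem_insert_of_mem hi) j (Finset.mem_insert_of_mem hj))
      (fun j hj => hs j (Finset.mem_insert_of_mem hj))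
    set C := Finset.univ.filter (fun f : E → Bool => ∀ j ∈ J, ∃ e ∈ T j, f e ≠ p e) with hC
    have hsplit : (Finset.univ.filter (fun f : E → Bool => ∀ j ∈ insert a J, ∃ e ∈ T j, f e ≠ p e))
        = C.filter (fun f => ∃ e ∈ T a, f e ≠ p e) := by
      ext f
      simp only [hC, Finset.mem_filter, Finset.mem_univ, true_and, Finset.forall_mem_insert]
      tauto
    have hM := Finset.card_filter_add_card_filter_not (s := C) (fun f => ∃ e ∈ T a, f e ≠ p e)
    set M := C.filter (fun f => ¬ ∃ e ∈ T a, f e ≠ p e) with hMdef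
    have hle : C.card ≤ 2 ^ s * M.card := by
      have h1 : C.card ≤ 2 ^ s * (C.image (fun f => fun e => if e ∈ T a then p e else f e)).card := by
        refine Finset.card_le_mul_card_image C (2 ^ s) ?_
        intro g _
        refine (card_fiber_le p (T a) C g).trans ?_
        exact Nat.pow_le_pow_right (by norm_num) (hs a (Finset.mem_insert_self a J))
      refine h1.trans (Nat.mul_le_mul_left _ (Finset.card_le_card ?_))
      intro g hg
      obtain ⟨f, hf, rfl⟩ := Finset.mem_image.mp hg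
      rw [hMdef, Finset.mem_filter]
      refine ⟨?_, ?_⟩
      · rw [hC, Finset.mem_filter] at hf ⊢
        refine ⟨Finset.mem_univ _, fun j hj => ?_⟩
        obtain ⟨e, he, hne⟩ := hf.2 j hj
        refine ⟨e, he, ?_⟩
        have hnot : e ∉ T a := by
          intro hea
          have := hdisj a (Finset.mem_insert_self a J) j (Finset.mem_insert_of_mem hj)
            (fun h => ha (h ▸ hj))
          exact Finset.disjoint_left.mp this hea he
        simp only [if_neg hnot]
        exact hne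
      · rintro ⟨e, he, hne⟩
        simp only [if_pos he] at hne
        exact hne rfl
    rw [hsplit, Finset.card_insert_of_notMem ha, pow_succ]
    have hle' : (C.card : ℝ) ≤ 2 ^ s * M.card := by exact_mod_cast hle
    have hM' : ((C.filter (fun f => ∃ e ∈ T a, f e ≠ p e)).card : ℝ) + M.card = C.card := by
      exact_mod_cast hM
    have hpos : (0 : ℝ) < (1 / 2) ^ s := by positivity
    have h2 : ((1 / 2 : ℝ) ^ s) * C.card ≤ M.card := by
      calc ((1 / 2 : ℝ) ^ s) * C.card ≤ (1 / 2) ^ s * (2 ^ s * M.card) :=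
            mul_le_mul_of_nonneg_left hle' hpos.le
        _ = M.card := by
            rw [← mul_assoc, ← mul_pow]; norm_num
    have h3 : (0 : ℝ) ≤ 1 - (1 / 2) ^ s := by
      have : ((1 / 2 : ℝ)) ^ s ≤ 1 := pow_le_one₀ (by norm_num) (by norm_num)
      linarith
    calc ((C.filter (fun f => ∃ e ∈ T a, f e ≠ p e)).card : ℝ)
        ≤ (1 - (1 / 2) ^ s) * C.card := by linarith
      _ ≤ (1 - (1 / 2) ^ s) * ((1 - (1 / 2) ^ s) ^ J.card * (Fintype.card (E → Bool) : ℝ)) :=
          mul_le_mul_of_nonneg_left ih' h3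
      _ = _ := by ring

lemma ncard_avoid {ι : Type*} (p : E → Bool) (T : ι → Finset E) (s : ℕ)
    (J : Finset ι) (hdisj : ∀ i ∈ J, ∀ j ∈ J, i ≠ j → Disjoint (T i) (T j))
    (hs : ∀ j ∈ J, (T j).card ≤ s) :
    (({f : E → Bool | ∀ j ∈ J, ∃ e ∈ T j, f e ≠ p e}).ncard : ℝ)
      ≤ (1 - (1 / 2) ^ s) ^ J.card * (Fintype.card (E → Bool) : ℝ) := by
  classical
  have := count_avoid p T s J hdisj hs
  rw [← Set.ncard_coe_finset] at this
  simpa using this

end counting

section edges

variable {n : ℕ}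

/-- The possible edges. -/
abbrev Edg (n : ℕ) : Type := {e : Sym2 (Fin n) // ¬ e.IsDiag}

/-- The graph of an indicator function on the possible edges. -/
def gr (f : Edg n → Bool) : SimpleGraph (Fin n) where
  Adj x y := ∃ h : ¬ (s(x, y)).IsDiag, f ⟨s(x, y), h⟩ = true
  symm := ⟨by
    rintro x y ⟨h, hf⟩
    refine ⟨by rwa [Sym2.eq_swap], ?_⟩
    have : (⟨s(y, x), by rwa [Sym2.eq_swap]⟩ : Edg n) = ⟨s(x, y), h⟩ := Subtype.ext Sym2.eq_swap
    rw [this]; exact hf⟩
  loopless := ⟨by rintro x ⟨h, -⟩; exact h (by simp)⟩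

lemma gr_adj (f : Edg n → Bool) {x y : Fin n} (h : x ≠ y) :
    (gr f).Adj x y ↔ f ⟨s(x, y), by simpa using h⟩ = true :=
  ⟨fun ⟨_, hf⟩ => hf, fun hf => ⟨_, hf⟩⟩

lemma gr_bijective : Function.Bijective (gr : (Edg n → Bool) → SimpleGraph (Fin n)) := by
  classical
  constructor
  · intro f g hfg
    funext ⟨e, he⟩
    induction e using Sym2.ind with
    | _ x y =>
      have hxy : x ≠ y := by simpa using he
      have h1 := gr_adj f hxy
      have h2 := gr_adj g hxy
      rw [hfg] at h1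
      rw [h1] at h2
      exact Bool.eq_iff_iff.mpr h2
  · intro G
    refine ⟨fun e => decide (e.1 ∈ G.edgeSet), ?_⟩
    ext x y
    by_cases hxy : x = y
    · subst hxy; simp
    · rw [gr_adj _ hxy]; simp

/-- The possible edges inside a set of vertices. -/
def within (B : Finset (Fin n)) : Finset (Edg n) :=
  Finset.univ.filter (fun e => ∀ x ∈ e.1, x ∈ B)

lemma mem_within {B : Finset (Fin n)} {x y : Fin n} (h : ¬ (s(x, y)).IsDiag) :
    (⟨s(x, y), h⟩ : Edg n) ∈ within B ↔ x ∈ B ∧ y ∈ B := by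
  simp [within]

lemma card_within (B : Finset (Fin n)) : (within B).card ≤ B.card.choose 2 := by
  rw [← Sym2.card_image_offDiag]
  refine Finset.card_le_card_of_injOn (fun e => e.1) ?_ (fun a _ b _ h => Subtype.ext h)
  rintro ⟨e, he⟩ hm
  induction e using Sym2.ind with
  | _ x y =>
    have := (mem_within he).mp hm
    have hxy : x ≠ y := by simpa using he
    simp only [Finset.coe_image, Set.mem_image, Finset.mem_coe, Finset.mem_offDiag]
    exact ⟨(x, y), ⟨this.1, this.2, hxy⟩, rfl⟩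

end edges

section events

variable {n : ℕ}

/-- The `j`-th block of nine consecutive vertices. -/
def block (n j : ℕ) : Finset (Fin n) := Finset.univ.filter (fun x => x.val / 9 = j)

lemma card_block (n j : ℕ) : (block n j).card ≤ 9 := by
  have : (Finset.range 9).card = 9 := Finset.card_range 9
  rw [← this]
  refine Finset.card_le_card_of_injOn (fun x => x.val % 9) ?_ ?_
  · intro x _
    simp only [Finset.coe_range, Set.mem_Iio]
    exact Nat.mod_lt _ (by norm_num)
  · intro x hx y hy h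
    simp only [block, Finset.coe_filter, Finset.mem_univ, true_and, Set.mem_ofPred_eq] at hx hy h
    apply Fin.ext
    omega

open Classical in
/-- The pattern copying the gadget onto every block. -/
noncomputable def pH (e : Edg n) : Bool :=
  decide (∃ x y : Fin n, e.1 = s(x, y) ∧ gadj (x.val % 9) (y.val % 9) = true)

lemma gadj_symm' : ∀ i j : Fin 9, gadj i.val j.val = gadj j.val i.val := by decide

lemma gadj_symm (i j : ℕ) (hi : i < 9) (hj : j < 9) : gadj i j = gadj j i :=
  gadj_symm' ⟨i, hi⟩ ⟨j, hj⟩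

lemma gadj_self : ∀ i : Fin 9, gadj i.val i.val = false := by decide

lemma badA_card (n : ℕ) :
    (({f : Edg n → Bool | ∀ j ∈ Finset.range (n / 9),
      ∃ e ∈ within (block n j), f e ≠ pH e}).ncard : ℝ)
      ≤ (1 - (1 / 2) ^ 36) ^ (n / 9) * (Fintype.card (Edg n → Bool) : ℝ) := by
  have := ncard_avoid (E := Edg n) pH (fun j => within (block n j)) 36 (Finset.range (n / 9)) ?_ ?_
  · rwa [Finset.card_range] at this
  · intro i _ j _ hij
    rw [Finset.disjoint_left]
    rintro ⟨e, he⟩ h1 h2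
    induction e using Sym2.ind with
    | _ x y =>
      have a1 := ((mem_within he).mp h1).1
      have a2 := ((mem_within he).mp h2).1
      simp only [block, Finset.mem_filter, Finset.mem_univ, true_and] at a1 a2
      exact hij (a1.symm.trans a2)
  · intro j _
    refine (card_within _).trans ?_
    calc (block n j).card.choose 2 ≤ Nat.choose 9 2 := Nat.choose_le_choose 2 (card_block n j)
      _ = 36 := by decide

/-- The embedding of the gadget vertices onto a block. -/
def emb (n j : ℕ) (hj : j < n / 9) (i : Fin 9) : Fin n := ⟨9 * j + i.val, by omega⟩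

lemma emb_inj (n j : ℕ) (hj : j < n / 9) : Function.Injective (emb n j hj) := by
  intro a b h
  have := congrArg Fin.val h
  simp only [emb] at this
  apply Fin.ext; omega

lemma emb_mem (n j : ℕ) (hj : j < n / 9) (i : Fin 9) : emb n j hj i ∈ block n j := by
  simp only [block, emb, Finset.mem_filter, Finset.mem_univ, true_and]
  omega

lemma goodA (f : Edg n → Bool) (j : ℕ) (hj : j < n / 9)
    (h : ∀ e ∈ within (block n j), f e = pH e) (i k : Fin 9) :
    (gr f).Adj (emb n j hj i) (emb n j hj k) ↔ gadj i.val k.val = true := by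
  by_cases hik : i = k
  · subst hik
    rw [gadj_self]; simp
  · have hne : emb n j hj i ≠ emb n j hj k := fun h => hik (emb_inj n j hj h)
    rw [gr_adj f hne, h _ ((mem_within _).mpr ⟨emb_mem n j hj i, emb_mem n j hj k⟩)]
    unfold pH
    rw [decide_eq_true_iff]
    have e1 : (emb n j hj i).val % 9 = i.val := by simp only [emb]; omega
    have e2 : (emb n j hj k).val % 9 = k.val := by simp only [emb]; omega
    constructor
    · rintro ⟨x, y, hxy, hg⟩
      rcases Sym2.eq_iff.mp hxy with ⟨h1, h2⟩ | ⟨h1, h2⟩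
      · rw [← h1, ← h2, e1, e2] at hg; exact hg
      · rw [← h1, ← h2, e1, e2] at hg
        rw [gadj_symm']; exact hg
    · intro hg
      exact ⟨_, _, rfl, by rw [e1, e2]; exact hg⟩

/-- The two possible edges from `w` to `u` and `v`. -/
def vee (u v w : Fin n) : Finset (Edg n) :=
  Finset.univ.filter (fun e => e.1 = s(u, w) ∨ e.1 = s(v, w))

lemma card_vee (u v w : Fin n) : (vee u v w).card ≤ 2 := by
  have h : ({s(u, w), s(v, w)} : Finset (Sym2 (Fin n))).card ≤ 2 := Finset.card_le_two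
  refine le_trans ?_ h
  refine Finset.card_le_card_of_injOn (fun e => e.1) ?_ (fun a _ b _ h => Subtype.ext h)
  intro e he
  simp only [vee, Finset.coe_filter, Finset.mem_univ, true_and, Set.mem_ofPred_eq] at he
  simp only [Finset.coe_insert, Finset.coe_singleton, Set.mem_insert_iff, Set.mem_singleton_iff]
  exact he

lemma badB_card (u v : Fin n) (huv : u ≠ v) :
    (({f : Edg n → Bool | ∀ w ∈ Finset.univ.filter (fun w : Fin n => w ≠ u ∧ w ≠ v),
      ∃ e ∈ vee u v w, f e ≠ true}).ncard : ℝ)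
      ≤ (3 / 4) ^ (n - 2) * (Fintype.card (Edg n → Bool) : ℝ) := by
  have := ncard_avoid (E := Edg n) (fun _ => true) (fun w => vee u v w) 2
    (Finset.univ.filter (fun w : Fin n => w ≠ u ∧ w ≠ v)) ?_ ?_
  · have hc : (Finset.univ.filter (fun w : Fin n => w ≠ u ∧ w ≠ v)).card = n - 2 := by
      have : (Finset.univ.filter (fun w : Fin n => w ≠ u ∧ w ≠ v)) = ({u, v} : Finset (Fin n))ᶜ := by
        ext w; simp
      rw [this, Finset.card_compl, Finset.card_pair huv, Fintype.card_fin]
    rw [hc] at this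
    norm_num at this ⊢
    exact this
  · intro w hw w' hw' hww
    rw [Finset.disjoint_left]
    intro e h1 h2
    simp only [vee, Finset.mem_filter, Finset.mem_univ, true_and] at h1 h2 hw hw'
    rcases h1 with h1 | h1 <;> rcases h2 with h2 | h2 <;> rw [h1] at h2 <;>
      rcases Sym2.eq_iff.mp h2 with ⟨h3, h4⟩ | ⟨h3, h4⟩ <;> simp_all
  · intro w _
    exact card_vee u v w

lemma goodB (f : Edg n → Bool) (u v : Fin n)
    (h : ¬ ∀ w ∈ Finset.univ.filter (fun w : Fin n => w ≠ u ∧ w ≠ v),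
      ∃ e ∈ vee u v w, f e ≠ true) : ∃ w, (gr f).Adj u w ∧ (gr f).Adj v w := by
  push Not at h
  obtain ⟨w, hw, h⟩ := h
  simp only [Finset.mem_filter, Finset.mem_univ, true_and] at hw
  refine ⟨w, ?_, ?_⟩
  · rw [gr_adj f hw.1.symm]
    exact h _ (by simp [vee])
  · rw [gr_adj f hw.2.symm]
    exact h _ (by simp [vee])

end events

section triples

variable {n : ℕ} [NeZero n]

/-- The triple of vertices with sum zero determined by two of its members. -/
def tri (x y : Fin n) : Finset (Fin n) := {x, y, -(x + y)}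

lemma tri_eq {x y a b : Fin n} (ha : a ∈ tri x y) (hb : b ∈ tri x y) (hab : a ≠ b) :
    tri a b = tri x y := by
  simp only [tri, Finset.mem_insert, Finset.mem_singleton] at ha hb
  ext t
  simp only [tri, Finset.mem_insert, Finset.mem_singleton]
  rcases ha with rfl | rfl | rfl <;> rcases hb with rfl | rfl | rfl
  · exact absurd rfl hab
  · exact Iff.rfl
  · rw [show -(a + -(a + y)) = y by abel]; tauto
  · rw [show -(a + b) = -(b + a) by rw [add_comm]]; tauto
  · exact absurd rfl hab
  · rw [show -(a + -(x + a)) = x by abel]; tauto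
  · rw [show -(-(b + y) + b) = y by abel]; tauto
  · rw [show -(-(x + b) + b) = x by abel]; tauto
  · exact absurd rfl hab

lemma card_tri_le (x y : Fin n) : (tri x y).card ≤ 3 := Finset.card_le_three

/-- Ordered pairs across the cut, avoiding the degenerate ones and those touching `X`. -/
def prs (A X : Finset (Fin n)) : Finset (Fin n × Fin n) :=
  (A ×ˢ Aᶜ).filter (fun q => -(q.1 + q.2) ≠ q.1 ∧ -(q.1 + q.2) ≠ q.2 ∧ q.2 ∉ X ∧ -(q.1 + q.2) ∉ X)

/-- The split triples used. -/
def trs (A X : Finset (Fin n)) : Finset (Finset (Fin n)) := (prs A X).image (fun q => tri q.1 q.2)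

lemma card_double (x : Fin n) :
    (Finset.univ.filter (fun y : Fin n => -(x + y) = y)).card ≤ 2 := by
  have : (Finset.range 2).card = 2 := Finset.card_range 2
  rw [← this]
  have key : ∀ y : Fin n, -(x + y) = y → (x.val + y.val + y.val) % n = 0 := by
    intro y hy
    have h1 : x + y + y = 0 := by
      rw [← hy]
      nth_rewrite 1 [hy]
      abel
    have h2 := congrArg Fin.val h1
    simpa [Fin.val_add] using h2
  have hn : 0 < n := Nat.pos_of_ne_zero (NeZero.ne n)
  refine Finset.card_le_card_of_injOn (fun y => 2 * y.val / n) ?_ ?_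
  · intro y _
    simp only [Finset.coe_range, Set.mem_Iio]
    rw [Nat.div_lt_iff_lt_mul hn]
    have := y.isLt
    omega
  · intro y hy y' hy' h
    simp only [Finset.coe_filter, Finset.mem_univ, true_and, Set.mem_ofPred_eq] at hy hy' h
    have h1 := key y hy
    have h2 := key y' hy'
    have e1 := Nat.div_add_mod (2 * y.val) n
    have e2 := Nat.div_add_mod (2 * y'.val) n
    have hmod : (2 * y.val) % n = (2 * y'.val) % n := by
      have a1 : (x.val + 2 * y.val) ≡ (x.val + 2 * y'.val) [MOD n] := by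
        unfold Nat.ModEq
        rw [show x.val + 2 * y.val = x.val + y.val + y.val by ring,
          show x.val + 2 * y'.val = x.val + y'.val + y'.val by ring, h1, h2]
      exact Nat.ModEq.add_left_cancel' _ a1
    rw [h, hmod] at e1
    apply Fin.ext
    omega

lemma card_prs_ge (A X : Finset (Fin n)) (hX : X.card ≤ 9) :
    A.card * (n - A.card - 21) ≤ (prs A X).card := by
  have h1 : (prs A X).card = ∑ x ∈ A, (Aᶜ.filter (fun y => -(x + y) ≠ x ∧ -(x + y) ≠ y ∧ y ∉ X ∧
      -(x + y) ∉ X)).card := by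
    unfold prs
    rw [Finset.card_filter, Finset.sum_product]
    refine Finset.sum_congr rfl fun x _ => ?_
    rw [Finset.card_filter]
  rw [h1, ← smul_eq_mul, ← Finset.sum_const]
  refine Finset.sum_le_sum fun x _ => ?_
  have hsub : Aᶜ \ (Finset.univ.filter (fun y : Fin n => -(x + y) = x) ∪
      Finset.univ.filter (fun y : Fin n => -(x + y) = y) ∪ X ∪
      Finset.univ.filter (fun y : Fin n => -(x + y) ∈ X)) ⊆
      (Aᶜ.filter (fun y => -(x + y) ≠ x ∧ -(x + y) ≠ y ∧ y ∉ X ∧ -(x + y) ∉ X)) := by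
    intro y hy
    simp only [Finset.mem_sdiff, Finset.mem_union, Finset.mem_filter, Finset.mem_univ, true_and,
      not_or] at hy ⊢
    exact ⟨hy.1, hy.2.1.1.1, hy.2.1.1.2, hy.2.1.2, hy.2.2⟩
  refine le_trans ?_ (Finset.card_le_card hsub)
  refine le_trans ?_ (Finset.le_card_sdiff _ _)
  have c1 : (Finset.univ.filter (fun y : Fin n => -(x + y) = x)).card ≤ 1 := by
    rw [Finset.card_le_one]
    intro a ha b hb
    simp only [Finset.mem_filter, Finset.mem_univ, true_and] at ha hb
    have := ha.trans hb.symm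
    exact add_left_cancel (neg_injective this)
  have c2 := card_double x
  have c3 : (Finset.univ.filter (fun y : Fin n => -(x + y) ∈ X)).card ≤ 9 := by
    refine le_trans (Finset.card_le_card_of_injOn (fun y => -(x + y)) ?_ ?_) hX
    · intro y hy
      simpa using hy
    · intro a _ b _ h
      exact add_left_cancel (neg_injective h)
  have c4 : Aᶜ.card = n - A.card := by rw [Finset.card_compl, Fintype.card_fin]
  have u1 := Finset.card_union_le (Finset.univ.filter (fun y : Fin n => -(x + y) = x) ∪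
      Finset.univ.filter (fun y : Fin n => -(x + y) = y) ∪ X)
      (Finset.univ.filter (fun y : Fin n => -(x + y) ∈ X))
  have u2 := Finset.card_union_le (Finset.univ.filter (fun y : Fin n => -(x + y) = x) ∪
      Finset.univ.filter (fun y : Fin n => -(x + y) = y)) X
  have u3 := Finset.card_union_le (Finset.univ.filter (fun y : Fin n => -(x + y) = x))
      (Finset.univ.filter (fun y : Fin n => -(x + y) = y))
  rw [c4]
  omega

lemma card_trs_ge (A X : Finset (Fin n)) (hX : X.card ≤ 9) (hA : 2 * A.card ≤ n) :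
    A.card * ((n / 2 - 21) / 9) ≤ (trs A X).card := by
  have h1 : (prs A X).card ≤ 9 * (trs A X).card := by
    refine Finset.card_le_mul_card_image (prs A X) 9 ?_
    intro τ hτ
    obtain ⟨q, hq, rfl⟩ := Finset.mem_image.mp hτ
    have h2 : (prs A X).filter (fun a => tri a.1 a.2 = tri q.1 q.2) ⊆
        (tri q.1 q.2) ×ˢ (tri q.1 q.2) := by
      intro a ha
      rw [Finset.mem_filter] at ha
      rw [Finset.mem_product, ← ha.2]
      constructor <;> simp [tri]
    refine (Finset.card_le_card h2).trans ?_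
    rw [Finset.card_product]
    have := card_tri_le q.1 q.2
    nlinarith
  have h2 := card_prs_ge A X hX
  have h3 : A.card * (9 * ((n / 2 - 21) / 9)) ≤ A.card * (n - A.card - 21) := by
    apply Nat.mul_le_mul_left
    omega
  have h4 : 9 * (A.card * ((n / 2 - 21) / 9)) ≤ 9 * (trs A X).card := by
    calc 9 * (A.card * ((n / 2 - 21) / 9)) = A.card * (9 * ((n / 2 - 21) / 9)) := by ring
      _ ≤ _ := h3.trans (h2.trans h1)
  omega

open Classical in
/-- The cut pattern. -/
noncomputable def pC (A : Finset (Fin n)) (e : Edg n) : Bool :=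
  decide (∃ x y : Fin n, e.1 = s(x, y) ∧ x ∈ A ∧ y ∉ A)

lemma pC_spec (A : Finset (Fin n)) {x y : Fin n} (h : ¬ (s(x, y)).IsDiag) :
    pC A ⟨s(x, y), h⟩ = true ↔ ¬ (x ∈ A ↔ y ∈ A) := by
  unfold pC
  rw [decide_eq_true_iff]
  constructor
  · rintro ⟨a, b, hab, ha, hb⟩
    rcases Sym2.eq_iff.mp hab with ⟨rfl, rfl⟩ | ⟨rfl, rfl⟩
    · tauto
    · tauto
  · intro h
    by_cases hx : x ∈ A
    · exact ⟨x, y, rfl, hx, fun hy => h ⟨fun _ => hy, fun _ => hx⟩⟩
    · refine ⟨y, x, Sym2.eq_swap, ?_, hx⟩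
      by_contra hy
      exact h ⟨fun h => absurd h hx, fun h => absurd h hy⟩

lemma badC_card (A X : Finset (Fin n)) (hX : X.card ≤ 9) (hA : 2 * A.card ≤ n) :
    (({f : Edg n → Bool | ∀ τ ∈ trs A X, ∃ e ∈ within τ, f e ≠ pC A e}).ncard : ℝ)
      ≤ ((7 / 8) ^ ((n / 2 - 21) / 9)) ^ A.card * (Fintype.card (Edg n → Bool) : ℝ) := by
  have := ncard_avoid (E := Edg n) (pC A) (fun τ => within τ) 3 (trs A X) ?_ ?_
  · refine this.trans ?_
    apply mul_le_mul_of_nonneg_right _ (by positivity)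
    have h78 : (1 - (1 / 2) ^ 3 : ℝ) = 7 / 8 := by norm_num
    rw [h78, ← pow_mul]
    refine pow_le_pow_of_le_one (by norm_num) (by norm_num) ?_
    rw [mul_comm]
    exact card_trs_ge A X hX hA
  · intro τ hτ τ' hτ' hne
    obtain ⟨q, hq, rfl⟩ := Finset.mem_image.mp hτ
    obtain ⟨q', hq', rfl⟩ := Finset.mem_image.mp hτ'
    rw [Finset.disjoint_left]
    rintro ⟨e, he⟩ h1 h2
    induction e using Sym2.ind with
    | _ x y =>
      have hxy : x ≠ y := by simpa using he
      have a1 := (mem_within he).mp h1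
      have a2 := (mem_within he).mp h2
      exact hne ((tri_eq a1.1 a1.2 hxy).symm.trans (tri_eq a2.1 a2.2 hxy))
  · intro τ hτ
    obtain ⟨q, hq, rfl⟩ := Finset.mem_image.mp hτ
    refine (card_within _).trans ?_
    calc (tri q.1 q.2).card.choose 2 ≤ Nat.choose 3 2 := Nat.choose_le_choose 2 (card_tri_le _ _)
      _ = 3 := by decide

lemma goodC (f : Edg n → Bool) (A X : Finset (Fin n))
    (h : ¬ ∀ τ ∈ trs A X, ∃ e ∈ within τ, f e ≠ pC A e) :
    ∃ u v : Fin n, u ≠ v ∧ ¬ (gr f).Adj u v ∧ (gr f).Adj u (-(u + v)) ∧ (gr f).Adj v (-(u + v)) ∧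
      ¬ (u ∈ X ∧ v ∈ X) ∧ (u ∈ A ↔ v ∈ A) ∧ ¬ (u ∈ A ↔ -(u + v) ∈ A) := by
  push Not at h
  obtain ⟨τ, hτ, h⟩ := h
  obtain ⟨⟨x, y⟩, hq, rfl⟩ := Finset.mem_image.mp hτ
  simp only [prs, Finset.mem_filter, Finset.mem_product, Finset.mem_compl] at hq
  obtain ⟨⟨hxA, hyA⟩, hzx, hzy, hyX, hzX⟩ := hq
  have hxy : x ≠ y := fun h => hyA (h ▸ hxA)
  set z := -(x + y) with hz
  have mx : x ∈ tri x y := by simp [tri]
  have my : y ∈ tri x y := by simp [tri]
  have mz : z ∈ tri x y := by simp [tri, hz]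
  have adj : ∀ a b : Fin n, a ∈ tri x y → b ∈ tri x y → a ≠ b →
      ((gr f).Adj a b ↔ ¬ (a ∈ A ↔ b ∈ A)) := by
    intro a b ha hb hab
    rw [gr_adj f hab, h _ ((mem_within _).mpr ⟨ha, hb⟩), pC_spec]
  by_cases hzA : z ∈ A
  · refine ⟨x, z, hzx.symm, ?_, ?_, ?_, fun h => hzX h.2, by tauto, ?_⟩
    · rw [adj x z mx mz hzx.symm]; tauto
    · rw [show -(x + z) = y by rw [hz]; abel, adj x y mx my hxy]; tauto
    · rw [show -(x + z) = y by rw [hz]; abel, adj z y mz my hzy]; tauto
    · rw [show -(x + z) = y by rw [hz]; abel]; tauto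
  · refine ⟨y, z, hzy.symm, ?_, ?_, ?_, fun h => hyX h.1, by tauto, ?_⟩
    · rw [adj y z my mz hzy.symm]; tauto
    · rw [show -(y + z) = x by rw [hz]; abel, adj y x my mx hxy.symm]; tauto
    · rw [show -(y + z) = x by rw [hz]; abel, adj z x mz mx hzx]; tauto
    · rw [show -(y + z) = x by rw [hz]; abel]; tauto

end triples

section final

/-- The property in question. -/
def Good {V : Type*} (G : SimpleGraph V) : Prop :=
  ∃ P : PathSystem G, P.Consistent ∧ P.Irreducible ∧ ¬ P.Metrizable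

lemma good_of {n : ℕ} [NeZero n] (f : Edg n → Bool)
    (hA : ¬ ∀ j ∈ Finset.range (n / 9), ∃ e ∈ within (block n j), f e ≠ pH e)
    (hB : ∀ u v : Fin n, u ≠ v → ¬ ∀ w ∈ Finset.univ.filter (fun w : Fin n => w ≠ u ∧ w ≠ v),
      ∃ e ∈ vee u v w, f e ≠ true)
    (hC : ∀ j ∈ Finset.range (n / 9), ∀ A : Finset (Fin n), A.Nonempty → 2 * A.card ≤ n →
      ¬ ∀ τ ∈ trs A (block n j), ∃ e ∈ within τ, f e ≠ pC A e) : Good (gr f) := by
  classical
  push Not at hA
  obtain ⟨j, hj, hA⟩ := hA
  have hj' : j < n / 9 := Finset.mem_range.mp hj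
  let φ := emb n j hj'
  have hφ : Function.Injective φ := emb_inj n j hj'
  have hthd : ∀ u v : Fin n, (fun u v : Fin n => -(u + v)) u v = (fun u v : Fin n => -(u + v)) v u :=
    fun u v => by simp [add_comm]
  have hH : ∀ i j : Fin 9, (gr f).Adj (φ i) (φ j) ↔ gadj i j = true := goodA f j hj' hA
  have hb : ∀ u v : Fin n, u ≠ v → ¬ (gr f).Adj u v → ∃ w, (gr f).Adj u w ∧ (gr f).Adj v w :=
    fun u v huv _ => goodB f u v (hB u v huv)
  refine ⟨sys hφ hthd hH hb, sys_consistent hφ hthd hH hb, sys_irreducible hφ hthd hH hb ?_,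
    sys_nonmetrizable hφ hthd hH hb⟩
  intro A hA1 hA2
  have hrange : ∀ u v : Fin n, ¬ (u ∈ block n j ∧ v ∈ block n j) →
      ¬ (u ∈ Set.range φ ∧ v ∈ Set.range φ) := by
    rintro u v h ⟨⟨a, rfl⟩, ⟨b, rfl⟩⟩
    exact h ⟨emb_mem n j hj' a, emb_mem n j hj' b⟩
  by_cases hcard : 2 * A.toFinset.card ≤ n
  · obtain ⟨u, v, h1, h2, h3, h4, h5, h6, h7⟩ :=
      goodC f A.toFinset (block n j) (hC j hj A.toFinset (by simpa using hA1) hcard)
    simp only [Set.mem_toFinset] at h6 h7
    exact ⟨u, v, h1, h2, h3, h4, hrange u v h5, h6, h7⟩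
  · have hcard' : 2 * (Aᶜ).toFinset.card ≤ n := by
      have : (Aᶜ).toFinset.card = n - A.toFinset.card := by
        rw [Set.toFinset_compl, Finset.card_compl, Fintype.card_fin]
      omega
    obtain ⟨u, v, h1, h2, h3, h4, h5, h6, h7⟩ :=
      goodC f (Aᶜ).toFinset (block n j) (hC j hj (Aᶜ).toFinset (Set.toFinset_nonempty.mpr hA2) hcard')
    simp only [Set.mem_toFinset, Set.mem_compl_iff] at h6 h7
    exact ⟨u, v, h1, h2, h3, h4, hrange u v h5, by tauto, by tauto⟩

lemma ncard_biUnion_le' {α β : Type*} [Finite β] (s : Finset α) (S : α → Set β) :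
    ((⋃ i ∈ s, S i).ncard : ℝ) ≤ ∑ i ∈ s, ((S i).ncard : ℝ) := by
  classical
  induction s using Finset.induction_on with
  | empty => simp
  | insert a s ha ih =>
    rw [Finset.set_biUnion_insert, Finset.sum_insert ha]
    have := Set.ncard_union_le (S a) (⋃ i ∈ s, S i)
    have h' : (((S a) ∪ (⋃ i ∈ s, S i)).ncard : ℝ) ≤ ((S a).ncard : ℝ) + ((⋃ i ∈ s, S i).ncard : ℝ) := by
      exact_mod_cast this
    linarith

/-- The error term. -/
noncomputable def eps (n : ℕ) : ℝ :=
  (1 - (1 / 2) ^ 36) ^ (n / 9) + (n : ℝ) ^ 2 * (3 / 4) ^ (n - 2) +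
    n * ((1 + (7 / 8) ^ ((n / 2 - 21) / 9)) ^ n - 1)

lemma bad_card (n : ℕ) [NeZero n] :
    (({f : Edg n → Bool | ¬ Good (gr f)}).ncard : ℝ) ≤ eps n * (Fintype.card (Edg n → Bool) : ℝ) := by
  classical
  set T : ℝ := (Fintype.card (Edg n → Bool) : ℝ) with hT
  have hT0 : 0 ≤ T := by positivity
  let SA : Set (Edg n → Bool) := {f | ∀ j ∈ Finset.range (n / 9), ∃ e ∈ within (block n j), f e ≠ pH e}
  let IB : Finset (Fin n × Fin n) := Finset.univ.filter (fun q => q.1 ≠ q.2)
  let SB : Fin n × Fin n → Set (Edg n → Bool) := fun q =>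
    {f | ∀ w ∈ Finset.univ.filter (fun w : Fin n => w ≠ q.1 ∧ w ≠ q.2), ∃ e ∈ vee q.1 q.2 w, f e ≠ true}
  let IC : Finset (ℕ × Finset (Fin n)) := Finset.range (n / 9) ×ˢ
    (Finset.univ.filter (fun A : Finset (Fin n) => A.Nonempty ∧ 2 * A.card ≤ n))
  let SC : ℕ × Finset (Fin n) → Set (Edg n → Bool) := fun q =>
    {f | ∀ τ ∈ trs q.2 (block n q.1), ∃ e ∈ within τ, f e ≠ pC q.2 e}
  have hsub : {f : Edg n → Bool | ¬ Good (gr f)} ⊆ (SA ∪ ⋃ q ∈ IB, SB q) ∪ ⋃ q ∈ IC, SC q := by
    intro f hf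
    by_contra hcon
    apply hf
    simp only [Set.mem_union, Set.mem_iUnion, not_or, not_exists] at hcon
    refine good_of f hcon.1.1 ?_ ?_
    · intro u v huv
      exact hcon.1.2 (u, v) (by simp [IB, huv])
    · intro j hj A hA hA2
      exact hcon.2 (j, A) (by
        simp only [IC, Finset.mem_product, Finset.mem_filter, Finset.mem_univ, true_and]
        exact ⟨hj, hA, hA2⟩)
  have h1 : (({f : Edg n → Bool | ¬ Good (gr f)}).ncard : ℝ) ≤
      ((SA.ncard : ℝ) + ((⋃ q ∈ IB, SB q).ncard : ℝ)) + ((⋃ q ∈ IC, SC q).ncard : ℝ) := by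
    have a1 := Set.ncard_le_ncard hsub (Set.toFinite _)
    have a2 := Set.ncard_union_le (SA ∪ ⋃ q ∈ IB, SB q) (⋃ q ∈ IC, SC q)
    have a3 := Set.ncard_union_le SA (⋃ q ∈ IB, SB q)
    exact_mod_cast a1.trans (a2.trans (by omega))
  have hSA : (SA.ncard : ℝ) ≤ (1 - (1 / 2) ^ 36) ^ (n / 9) * T := badA_card n
  have hSB : ((⋃ q ∈ IB, SB q).ncard : ℝ) ≤ (n : ℝ) ^ 2 * (3 / 4) ^ (n - 2) * T := by
    refine (ncard_biUnion_le' IB SB).trans ?_
    have : ∀ q ∈ IB, ((SB q).ncard : ℝ) ≤ (3 / 4) ^ (n - 2) * T := by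
      intro q hq
      exact badB_card q.1 q.2 (by simpa [IB] using hq)
    refine (Finset.sum_le_sum this).trans ?_
    rw [Finset.sum_const, nsmul_eq_mul, mul_assoc]
    apply mul_le_mul_of_nonneg_right _ (by positivity)
    have : IB.card ≤ n ^ 2 := by
      refine (Finset.card_le_univ IB).trans ?_
      simp [sq]
    exact_mod_cast this
  have hSC : ((⋃ q ∈ IC, SC q).ncard : ℝ) ≤
      n * ((1 + (7 / 8) ^ ((n / 2 - 21) / 9)) ^ n - 1) * T := by
    refine (ncard_biUnion_le' IC SC).trans ?_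
    set x : ℝ := (7 / 8) ^ ((n / 2 - 21) / 9) with hx
    have hx0 : 0 ≤ x := by positivity
    have : ∀ q ∈ IC, ((SC q).ncard : ℝ) ≤ x ^ q.2.card * T := by
      intro q hq
      simp only [IC, Finset.mem_product, Finset.mem_filter, Finset.mem_univ, true_and] at hq
      exact badC_card q.2 (block n q.1) (card_block n q.1) hq.2.2
    refine (Finset.sum_le_sum this).trans ?_
    rw [← Finset.sum_mul]
    apply mul_le_mul_of_nonneg_right _ hT0
    simp only [IC]
    rw [Finset.sum_product]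
    simp only [Finset.sum_const, nsmul_eq_mul, Finset.card_range]
    have hsum : ∑ A ∈ Finset.univ.filter (fun A : Finset (Fin n) => A.Nonempty ∧ 2 * A.card ≤ n),
        x ^ A.card ≤ (1 + x) ^ n - 1 := by
      have h2 := Finset.sum_pow_mul_eq_add_pow x 1 (Finset.univ : Finset (Fin n))
      simp only [one_pow, mul_one, Finset.card_univ, Fintype.card_fin, Finset.powerset_univ] at h2
      rw [add_comm 1 x, ← h2, ← Finset.sum_erase_add _ _ (Finset.mem_univ (∅ : Finset (Fin n)))]
      simp only [Finset.card_empty, pow_zero, add_sub_cancel_right]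
      refine Finset.sum_le_sum_of_subset_of_nonneg ?_ (fun _ _ _ => by positivity)
      intro A hA
      simp only [Finset.mem_filter, Finset.mem_univ, true_and] at hA
      simp [Finset.nonempty_iff_ne_empty.mp hA.1]
    have hnn : 0 ≤ (1 + x) ^ n - 1 := by
      have : 1 ≤ (1 + x) ^ n := one_le_pow₀ (by linarith)
      linarith
    have hn9 : (((n / 9 : ℕ)) : ℝ) ≤ n := by exact_mod_cast Nat.div_le_self n 9
    calc (((n / 9 : ℕ)) : ℝ) * ∑ A ∈ Finset.univ.filter
          (fun A : Finset (Fin n) => A.Nonempty ∧ 2 * A.card ≤ n), x ^ A.card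
        ≤ (((n / 9 : ℕ)) : ℝ) * ((1 + x) ^ n - 1) := mul_le_mul_of_nonneg_left hsum (by positivity)
      _ ≤ n * ((1 + x) ^ n - 1) := mul_le_mul_of_nonneg_right hn9 hnn
  unfold eps
  calc _ ≤ _ := h1
    _ ≤ ((1 - (1 / 2) ^ 36) ^ (n / 9) * T + (n : ℝ) ^ 2 * (3 / 4) ^ (n - 2) * T) +
        n * ((1 + (7 / 8) ^ ((n / 2 - 21) / 9)) ^ n - 1) * T := by linarith
    _ = _ := by ring

lemma tendsto_div_atTop (k : ℕ) (hk : 0 < k) : Tendsto (fun n : ℕ => n / k) atTop atTop :=
  Nat.tendsto_div_const_atTop hk.ne'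

lemma eps_tendsto : Tendsto eps atTop (nhds 0) := by
  have t1 : Tendsto (fun n : ℕ => ((1 - (1 / 2) ^ 36 : ℝ)) ^ (n / 9)) atTop (nhds 0) :=
    (tendsto_pow_atTop_nhds_zero_of_lt_one (by norm_num) (by norm_num)).comp
      (tendsto_div_atTop 9 (by norm_num))
  have t2 : Tendsto (fun n : ℕ => (n : ℝ) ^ 2 * (3 / 4) ^ (n - 2)) atTop (nhds 0) := by
    have h := (tendsto_pow_const_mul_const_pow_of_abs_lt_one 2 (r := (3 / 4 : ℝ))
      (by rw [abs_of_pos] <;> norm_num)).const_mul (16 / 9)
    rw [mul_zero] at h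
    refine h.congr' ?_
    filter_upwards [eventually_ge_atTop 2] with n hn
    obtain ⟨m, rfl⟩ := Nat.exists_eq_add_of_le hn
    rw [Nat.add_sub_cancel_left, pow_add]
    ring
  have hM : Tendsto (fun n : ℕ => (n / 2 - 21) / 9) atTop atTop := by
    refine (tendsto_div_atTop 9 (by norm_num)).comp ?_
    exact (tendsto_sub_atTop_nat 21).comp (tendsto_div_atTop 2 (by norm_num))
  have t4 : Tendsto (fun n : ℕ => (n : ℝ) ^ 2 * (7 / 8) ^ ((n / 2 - 21) / 9)) atTop (nhds 0) := by
    have h := (tendsto_pow_const_mul_const_pow_of_abs_lt_one 2 (r := (7 / 8 : ℝ))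
      (by rw [abs_of_pos] <;> norm_num)).comp ((tendsto_add_atTop_nat 1).comp hM)
    have h' := h.const_mul (80 ^ 2 * (8 / 7))
    rw [mul_zero] at h'
    refine squeeze_zero (fun n => by positivity) (fun n => ?_) h'
    simp only [Function.comp]
    set M := (n / 2 - 21) / 9 with hMdef
    have hn : n ≤ 80 * (M + 1) := by omega
    have hn' : (n : ℝ) ≤ 80 * ((M + 1 : ℕ) : ℝ) := by exact_mod_cast hn
    calc (n : ℝ) ^ 2 * (7 / 8) ^ M ≤ (80 * ((M + 1 : ℕ) : ℝ)) ^ 2 * (7 / 8) ^ M := by
          apply mul_le_mul_of_nonneg_right _ (by positivity)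
          exact pow_le_pow_left₀ (by positivity) hn' 2
      _ = 80 ^ 2 * (8 / 7) * (((M + 1 : ℕ) : ℝ) ^ 2 * (7 / 8) ^ (M + 1)) := by
          rw [pow_succ (7 / 8 : ℝ) M]; ring
  have t3 : Tendsto (fun n : ℕ => (n : ℝ) * ((1 + (7 / 8) ^ ((n / 2 - 21) / 9)) ^ n - 1)) atTop
      (nhds 0) := by
    have h2 := t4.const_mul 2
    rw [mul_zero] at h2
    have hev : ∀ᶠ n : ℕ in atTop, (n : ℝ) ^ 2 * (7 / 8) ^ ((n / 2 - 21) / 9) < 1 :=
      t4.eventually_lt_const (by norm_num)
    refine squeeze_zero' (Eventually.of_forall fun n => ?_) ?_ h2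
    · have : (1 : ℝ) ≤ (1 + (7 / 8) ^ ((n / 2 - 21) / 9)) ^ n :=
        one_le_pow₀ (by have : (0:ℝ) ≤ (7 / 8) ^ ((n / 2 - 21) / 9) := by positivity
                        linarith)
      have h0 : (0 : ℝ) ≤ n := by positivity
      exact mul_nonneg h0 (by linarith)
    · filter_upwards [hev, eventually_ge_atTop 1] with n hn hn1
      set x : ℝ := (7 / 8) ^ ((n / 2 - 21) / 9) with hx
      have hx0 : 0 ≤ x := by positivity
      have hn1' : (1 : ℝ) ≤ n := by exact_mod_cast hn1
      have hnx : (n : ℝ) * x ≤ 1 := by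
        have : (n : ℝ) * x ≤ (n : ℝ) ^ 2 * x := by
          apply mul_le_mul_of_nonneg_right _ hx0
          nlinarith
        linarith
      have hexp : (1 + x) ^ n ≤ Real.exp (n * x) := by
        rw [Real.exp_nat_mul]
        refine pow_le_pow_left₀ (by linarith) ?_ n
        rw [add_comm]; exact Real.add_one_le_exp x
      have habs : |Real.exp (n * x) - 1| ≤ 2 * |n * x| := Real.abs_exp_sub_one_le (by
        rw [abs_of_nonneg (by positivity)]; exact hnx)
      rw [abs_of_nonneg (a := (n : ℝ) * x) (by positivity)] at habs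
      have h5 : (1 + x) ^ n - 1 ≤ 2 * (n * x) := by
        have := le_abs_self (Real.exp (n * x) - 1)
        linarith
      calc (n : ℝ) * ((1 + x) ^ n - 1) ≤ n * (2 * (n * x)) :=
            mul_le_mul_of_nonneg_left h5 (by positivity)
        _ = 2 * ((n : ℝ) ^ 2 * x) := by ring
  have h := (t1.add t2).add t3
  rw [add_zero, add_zero] at h
  exact h

/-- **Theorem.** The proportion of labelled graphs on `n` vertices (that is, the probability in
`G(n,1/2)`) that carry a consistent path system which is irreducible and not metrizable tends to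
`1` as `n` tends to infinity. -/
theorem result :
    Tendsto (fun n : ℕ =>
      (Nat.card {G : SimpleGraph (Fin n) //
        ∃ P : PathSystem G, P.Consistent ∧ P.Irreducible ∧ ¬ P.Metrizable} : ℝ) /
      (Nat.card (SimpleGraph (Fin n)) : ℝ)) atTop (nhds 1) := by
  classical
  have hlow : Tendsto (fun n => 1 - eps n) atTop (nhds 1) := by
    simpa using (tendsto_const_nhds (x := (1 : ℝ))).sub eps_tendsto
  refine tendsto_of_tendsto_of_tendsto_of_le_of_le' hlow tendsto_const_nhds ?_ ?_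
  · filter_upwards [eventually_ge_atTop 1] with n hn
    have : NeZero n := ⟨by omega⟩
    have hbij := gr_bijective (n := n)
    have htot : Nat.card (SimpleGraph (Fin n)) = Fintype.card (Edg n → Bool) := by
      rw [← Nat.card_eq_of_bijective _ hbij, Nat.card_eq_fintype_card]
    have hpos : (0 : ℝ) < (Fintype.card (Edg n → Bool) : ℝ) := by
      exact_mod_cast Fintype.card_pos
    have hgood : Nat.card {G : SimpleGraph (Fin n) //
        ∃ P : PathSystem G, P.Consistent ∧ P.Irreducible ∧ ¬ P.Metrizable} =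
        ({f : Edg n → Bool | Good (gr f)}).ncard := by
      have : ({G : SimpleGraph (Fin n) | Good G}).ncard = ({f : Edg n → Bool | Good (gr f)}).ncard := by
        rw [← Set.ncard_image_of_injective _ hbij.1]
        congr 1
        ext G
        constructor
        · intro hG
          obtain ⟨f, rfl⟩ := hbij.2 G
          exact ⟨f, hG, rfl⟩
        · rintro ⟨f, hf, rfl⟩
          exact hf
      rw [← this]
      rfl
    have hcompl : ({f : Edg n → Bool | Good (gr f)}).ncard +
        ({f : Edg n → Bool | ¬ Good (gr f)}).ncard = Fintype.card (Edg n → Bool) := by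
      have := Set.ncard_add_ncard_compl ({f : Edg n → Bool | Good (gr f)})
      rw [Nat.card_eq_fintype_card] at this
      exact this
    have hb := bad_card n
    rw [hgood, htot, le_div_iff₀ hpos]
    have hcompl' : ((({f : Edg n → Bool | Good (gr f)}).ncard : ℕ) : ℝ) +
        ((({f : Edg n → Bool | ¬ Good (gr f)}).ncard : ℕ) : ℝ) = (Fintype.card (Edg n → Bool) : ℝ) := by
      exact_mod_cast hcompl
    linarith
  · filter_upwards with n
    apply div_le_one_of_le₀ _ (by positivity)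
    have : Nat.card {G : SimpleGraph (Fin n) //
        ∃ P : PathSystem G, P.Consistent ∧ P.Irreducible ∧ ¬ P.Metrizable} ≤
        Nat.card (SimpleGraph (Fin n)) :=
      Nat.card_le_card_of_injective _ Subtype.val_injective
    exact_mod_cast this

end final

end Pool.Agent.Results.MP_696e10_co.HalfRandom
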